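import Mathlib
import Pool.Agent.H89.CR5

set_option autoImplicit false

namespace Pool.Agent.Results.MP_e9773e_co.Tight

open Filter
open scoped ENNReal

/-- A drawing of `G` in the plane `ℂ`: distinct points for the vertices, and for each edge a simple
arc joining its ends (the two orientations trace the same arc) through no other vertex. -/
structure Drawing {V : Type} (G : SimpleGraph V) where
  pos : V → ℂ
  arc : V → V → ℝ → ℂ
  pos_inj : Function.Injective pos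
  cont : ∀ u v, G.Adj u v → ContinuousOn (arc u v) (Set.Icc 0 1)
  inj : ∀ u v, G.Adj u v → Set.InjOn (arc u v) (Set.Icc 0 1)
  src : ∀ u v, G.Adj u v → arc u v 0 = pos u
  tgt : ∀ u v, G.Adj u v → arc u v 1 = pos v
  rev : ∀ u v, G.Adj u v → ∀ t ∈ Set.Icc (0 : ℝ) 1, arc v u t = arc u v (1 - t)
  avoid : ∀ u v, G.Adj u v → ∀ t ∈ Set.Ioo (0 : ℝ) 1, ∀ w, arc u v t ≠ pos w

/-- The crossings of a drawing: an unordered pair of distinct edges together with a point interior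
to both arcs. -/
def Drawing.crossings {V : Type} {G : SimpleGraph V} (D : Drawing G) :
    Set (Sym2 (Sym2 V) × ℂ) :=
  {x | ∃ u v u' v', G.Adj u v ∧ G.Adj u' v' ∧ s(u, v) ≠ s(u', v') ∧
    x.1 = s(s(u, v), s(u', v')) ∧ (∃ t ∈ Set.Ioo (0 : ℝ) 1, D.arc u v t = x.2) ∧
    ∃ t ∈ Set.Ioo (0 : ℝ) 1, D.arc u' v' t = x.2}

/-- The crossing number: the least number of crossings of a drawing. -/
noncomputable def cr {V : Type} (G : SimpleGraph V) : ℕ∞ :=
  ⨅ D : Drawing G, D.crossings.encard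

/-- The biplanar crossing number: minimum over partitions of the edge set into two parts. -/
noncomputable def cr₂ {V : Type} (G : SimpleGraph V) : ℕ∞ :=
  ⨅ (G₁ : SimpleGraph V) (G₂ : SimpleGraph V) (_ : G₁ ⊔ G₂ = G) (_ : Disjoint G₁ G₂),
    cr G₁ + cr G₂

/-- The hypercube `Q_k`. -/
def Q (k : ℕ) : SimpleGraph (Fin k → Bool) where
  Adj x y := hammingDist x y = 1
  symm := ⟨fun x y h => by rwa [hammingDist_comm]⟩
  loopless := ⟨fun x => by simp⟩

theorem result : (∀ k, cr₂ (Q k) ≠ ⊤) ∧ ∃ c : ℝ, 0 < c ∧ ∀ᶠ k : ℕ in atTop,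
    ENNReal.ofReal (c * (2 : ℝ) ^ ((3 * k : ℝ) / 2)) ≤ (cr₂ (Q k) : ℝ≥0∞) := by
  have fin : ∀ {V : Type} [Finite V] (G : SimpleGraph V), cr G ≠ ⊤ := by
    intro V _ G
    obtain ⟨D, hD⟩ := H89.CR.exists_dr G
    exact ne_top_of_le_ne_top (b := (Drawing.crossings
      ⟨D.1, D.2, D.3, D.4, D.5, D.6, D.7, D.8, D.9⟩).encard) hD.encard_lt_top.ne (iInf_le _ _)
  have ex : ∀ {V : Type} [Finite V] (G : SimpleGraph V),
      ∃ D : H89.CR.Dr G, D.cross.Finite ∧ cr G = D.cross.ncard := by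
    intro V _ G
    obtain ⟨D₀, -⟩ := H89.CR.exists_dr G
    haveI : Nonempty (Drawing G) :=
      ⟨⟨D₀.1, D₀.2, D₀.3, D₀.4, D₀.5, D₀.6, D₀.7, D₀.8, D₀.9⟩⟩
    obtain ⟨D, hD⟩ := ciInf_mem fun D : Drawing G => D.crossings.encard
    have hf : D.crossings.Finite := Set.encard_ne_top_iff.1 fun h => fin G (hD.symm.trans h)
    exact ⟨⟨D.1, D.2, D.3, D.4, D.5, D.6, D.7, D.8, D.9⟩, hf,
      hD.symm.trans hf.cast_ncard_eq.symm⟩
  refine ⟨fun k => ?_, 1 / 10 ^ 7, by norm_num, ?_⟩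
  · refine ne_top_of_le_ne_top (b := cr (Q k) + cr (⊥ : SimpleGraph (Fin k → Bool)))
      (WithTop.add_ne_top.2 ⟨fin _, fin _⟩) ?_
    exact iInf_le_of_le (Q k) (iInf_le_of_le ⊥ (iInf_le_of_le (sup_bot_eq _)
      (iInf_le_of_le disjoint_bot_right le_rfl)))
  · filter_upwards [H89.CR.main] with k hk
    have key : ((⌈1 / 10 ^ 7 * (2 : ℝ) ^ ((3 * k : ℝ) / 2)⌉₊ : ℕ) : ℕ∞) ≤ cr₂ (Q k) := by
      refine le_iInf fun G₁ => le_iInf fun G₂ => le_iInf fun h => le_iInf fun _ => ?_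
      obtain ⟨D₁, f₁, e₁⟩ := ex G₁
      obtain ⟨D₂, f₂, e₂⟩ := ex G₂
      have := hk G₁ G₂ (fun x y => by rw [← SimpleGraph.sup_adj, h]; rfl) D₁ D₂ f₁ f₂
      rw [e₁, e₂]
      exact_mod_cast Nat.ceil_le.2 (by exact_mod_cast this)
    refine le_trans ?_ (ENat.toENNReal_le.2 key)
    rw [ENat.toENNReal_coe, ← ENNReal.ofReal_natCast]
    exact ENNReal.ofReal_le_ofReal (Nat.le_ceil _)

end Pool.Agent.Results.MP_e9773e_co.Tight
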